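import Pool.Agent.H33.CUBE.JR

/-!
# Cube project, block TAME, part J: module JN (`J` and derivations)
-/

set_option autoImplicit false

open Finset MvPolynomial Pool.CM

namespace Pool.CUBE

namespace JNh

section abs
variable {n : ℕ} {R : Type} [CommRing R]

theorem d_one (d : DerZ R) : d 1 = 0 := d.map_one_eq_zero

theorem cD_Sg (d : DerZ R) (D : ℕ) : cD d (Sg n R ^ D) = 0 := by
  have h1 : cD d (Sg n R) = 0 := by
    rw [Sg, map_sum]
    refine Finset.sum_eq_zero fun i _ => ?_
    have : (X i : Poly n R) = monomial (Finsupp.single i 1) 1 := rfl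
    rw [this, cD_monomial, d.map_one_eq_zero, monomial_zero]
  rw [Derivation.leibniz_pow, h1, smul_zero, smul_zero]

theorem cD_gen (d : DerZ R) (D : ℕ) (c : R) (h : Poly n R) :
    cD d (C c * Sg n R ^ D - h) = C (d c) * Sg n R ^ D - cD d h := by
  rw [map_sub, Derivation.leibniz, cD_Sg, smul_zero, zero_add, smul_eq_mul]
  have : cD d (C c : Poly n R) = C (d c) := cD_monomial d 0 _
  rw [this, mul_comm]

theorem nab_gen (d : DerZ R) (D : ℕ) (c : R) (h : Poly n R) (a : Fin (n + 1) →₀ ℕ) :
    nab0 d (C c * Sg n R ^ D - h) (monomial a 1) =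
      (cD d h - C (d c) * Sg n R ^ D) * monomial a 1 := by
  rw [nab0_apply, cD_monomial, d.map_one_eq_zero, monomial_zero, cD_gen]
  ring

/-- reduction to monomials -/
theorem reduce (d : DerZ R) (P : Poly n R) (J : Poly n R →ₗ[R] R)
    (h : ∀ a, J (nab0 d P (monomial a 1)) = d (J (monomial a 1)))
    (g : Poly n R) : J (nab0 d P g) = d (J g) := by
  induction g using MvPolynomial.induction_on' with
  | add g1 g2 h1 h2 => rw [map_add, map_add, map_add, map_add, h1, h2]
  | monomial a r =>
    have e1 : (monomial a r : Poly n R) = r • monomial a 1 := by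
      rw [smul_monomial, smul_eq_mul, mul_one]
    rw [e1, nab0_smul, map_add, map_smul, map_smul, map_smul, h a, smul_eq_mul, smul_eq_mul,
      smul_eq_mul, Derivation.leibniz, smul_eq_mul, smul_eq_mul]
    ring

end abs

section
variable {n : ℕ} {B : Type} [CommRing B] [Algebra ℚ B]

/-- derivations kill the rational numbers -/
theorem der_rat (δ : DerZ B) (q : ℚ) : δ (algebraMap ℚ B q) = 0 := by
  have hd : ((q.den : ℕ) : ℚ) ≠ 0 := by exact_mod_cast q.den_nz
  have h1 : ((q.den : ℕ) : B) * algebraMap ℚ B q = ((q.num : ℤ) : B) := by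
    have h2 : (algebraMap ℚ B) (((q.den : ℕ) : ℚ) * q) = (algebraMap ℚ B) ((q.num : ℤ) : ℚ) := by
      rw [Rat.den_mul_eq_num]
    rw [map_mul, map_natCast, map_intCast] at h2
    exact h2
  have h3 : δ (((q.den : ℕ) : B) * algebraMap ℚ B q) = 0 := by
    rw [h1]
    exact δ.map_intCast _
  rw [Derivation.leibniz, smul_eq_mul, smul_eq_mul, Derivation.map_natCast, mul_zero,
    add_zero] at h3
  have h4 : algebraMap ℚ B (((q.den : ℕ) : ℚ)⁻¹) * (((q.den : ℕ) : B) * δ (algebraMap ℚ B q)) =
      0 := by rw [h3, mul_zero]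
  rw [← mul_assoc] at h4
  have h5 : algebraMap ℚ B (((q.den : ℕ) : ℚ)⁻¹) * ((q.den : ℕ) : B) = 1 := by
    have : ((q.den : ℕ) : B) = algebraMap ℚ B ((q.den : ℕ) : ℚ) := (map_natCast _ _).symm
    rw [this, ← map_mul, inv_mul_cancel₀ hd, map_one]
  rwa [h5, one_mul] at h4

theorem der_rat_mul (δ : DerZ B) (q : ℚ) (x : B) :
    δ (algebraMap ℚ B q * x) = algebraMap ℚ B q * δ x := by
  rw [Derivation.leibniz, der_rat, smul_zero, add_zero, smul_eq_mul]

theorem der_IoQ (δ : DerZ B) (h : Poly n B) : δ (IoQ h) = IoQ (cD δ h) := by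
  induction h using MvPolynomial.induction_on' with
  | add g1 g2 h1 h2 => rw [map_add, map_add, h1, h2, map_add, map_add]
  | monomial a s =>
    rw [cD_monomial, IoQ, linMon_monomial, linMon_monomial, smul_eq_mul, smul_eq_mul, mul_comm,
      der_rat_mul, mul_comm]

omit [Algebra ℚ B] in
theorem wt_mon {D L : ℕ} {a : Fin (n + 1) →₀ ℕ} (hL : a.degree + (n + 1) = D * L) :
    Wt (D * L) (monomial a 1 : Poly n B) := by
  intro b hb
  classical
  rw [coeff_monomial] at hb
  split_ifs at hb with h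
  · rw [← h]; exact hL
  · exact absurd rfl hb

omit [Algebra ℚ B] in
theorem nw_mon {D : ℕ} {a : Fin (n + 1) →₀ ℕ} (hd : ¬ D ∣ a.degree + (n + 1)) :
    JRh.NW D (monomial a 1 : Poly n B) := by
  intro b hb
  classical
  rw [coeff_monomial] at hb
  split_ifs at hb with h
  · rw [← h]; exact hd
  · exact absurd rfl hb

theorem L_pos {D L : ℕ} {a : Fin (n + 1) →₀ ℕ} (hL : a.degree + (n + 1) = D * L) : 1 ≤ L := by
  rcases Nat.eq_zero_or_pos L with h | h
  · subst h; omega
  · exact h

/-- the connection in the direction `T` on `aN` -/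
theorem aN_T (hIOB : IOBStmt) {D : ℕ} (hD : 0 < D) (X1 : Poly n B) (N : ℕ)
    (a : Fin (n + 1) →₀ ℕ) :
    aN D X1 (N + 1) (Sg n B ^ D * monomial a 1) =
      ((N + 1 : ℕ) : B) * aN D X1 N (monomial a 1) ∧
    aN D X1 0 (Sg n B ^ D * monomial a 1) = 0 := by
  by_cases hd : D ∣ a.degree + (n + 1)
  · obtain ⟨L, hL⟩ := hd
    have hw := wt_mon (B := B) hL
    have w2 : Wt (D * (L + 1)) (Sg n B ^ D * monomial a 1) := by
      have e0 : D * L + D = D * (L + 1) := by ring
      rw [← e0]; exact JRh.wt_mul (JRh.SgD_hom n B D) hw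
    have hL1 := L_pos hL
    refine ⟨?_, ?_⟩
    · rw [JRh.aN_wt hD X1 (N + 1) (L + 1) w2, JRh.aN_wt hD X1 N L hw]
      by_cases hLN : L ≤ N + 1
      · have e1 : N + 1 + 1 - (L + 1) = N + 1 - L := by omega
        rw [if_pos (by omega), if_pos hLN, e1, mul_assoc, JRh.IoQ_Sg_pow hIOB, ← mul_assoc]
        congr 1
        rw [← map_natCast (algebraMap ℚ B), ← map_mul, Nat.factorial_succ]
        congr 1
        push_cast
        ring
      · rw [if_neg (by omega), if_neg hLN, mul_zero]
    · rw [JRh.aN_wt hD X1 0 (L + 1) w2, if_neg (by omega)]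
  · have hw := nw_mon (B := B) hd
    have w2 : JRh.NW D (Sg n B ^ D * monomial a 1) := JRh.nw_mul (JRh.SgD_hom n B D) hw
    rw [JRh.aN_nw X1 _ w2, JRh.aN_nw X1 _ w2, JRh.aN_nw X1 _ hw, mul_zero]
    exact ⟨rfl, rfl⟩

/-- the connection in the direction of `B` on `aN` -/
theorem aN_B {D : ℕ} (hD : 0 < D) {X1 : Poly n B} (hX : X1.IsHomogeneous D) (δ : DerZ B)
    (N : ℕ) (a : Fin (n + 1) →₀ ℕ) :
    aN D X1 N (cD δ X1 * monomial a 1) = δ (aN D X1 N (monomial a 1)) := by
  have hX' : (cD δ X1).IsHomogeneous D := by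
    intro b hb
    refine hX fun h0 => hb ?_
    have : coeff b (cD δ X1) = δ (coeff b X1) := rfl
    rw [this, h0, map_zero]
  by_cases hd : D ∣ a.degree + (n + 1)
  · obtain ⟨L, hL⟩ := hd
    have hw := wt_mon (B := B) hL
    have w2 : Wt (D * (L + 1)) (cD δ X1 * monomial a 1) := by
      have e0 : D * L + D = D * (L + 1) := by ring
      rw [← e0]; exact JRh.wt_mul hX' hw
    rw [JRh.aN_wt hD X1 N (L + 1) w2, JRh.aN_wt hD X1 N L hw]
    by_cases hLN : L ≤ N + 1
    · rw [if_pos hLN, der_rat_mul, der_IoQ, Derivation.leibniz, Derivation.leibniz_pow,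
        cD_monomial, δ.map_one_eq_zero, map_zero, smul_zero, add_zero]
      rcases Nat.eq_zero_or_pos (N + 1 - L) with h0 | hpos
      · rw [if_neg (by omega), h0, zero_smul, smul_zero, map_zero, mul_zero]
      · obtain ⟨m, hm⟩ : ∃ m, N + 1 - L = m + 1 := ⟨N + 1 - L - 1, by omega⟩
        have e7 : N + 1 - (L + 1) = m := by omega
        rw [if_pos (by omega), hm, e7, ← JRh.fac_rel N m, Nat.add_sub_cancel]
        have e8 : (monomial a 1 : Poly n B) • ((m + 1) • X1 ^ m • cD δ X1) =
            ((m + 1 : ℕ) : Poly n B) * (cD δ X1 * monomial a 1 * X1 ^ m) := by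
          simp only [smul_eq_mul, nsmul_eq_mul]
          ring
        rw [e8, JRh.IoQ_nat, RingHom.map_mul (algebraMap ℚ B) _ (((m + 1 : ℕ) : ℚ)),
          map_natCast (algebraMap ℚ B)]
        ring
    · rw [if_neg hLN, if_neg (by omega), map_zero]
  · have hw := nw_mon (B := B) hd
    have w2 : JRh.NW D (cD δ X1 * monomial a 1) := JRh.nw_mul hX' hw
    rw [JRh.aN_nw X1 _ w2, JRh.aN_nw X1 _ hw, map_zero]

omit [Algebra ℚ B] in
theorem cD_map_C (δ : DerZ B) (d : DerZ (LaurentSeries B))
    (hd : ∀ f k, (d f).coeff k = δ (f.coeff k)) (h : Poly n B) :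
    cD d (map (HahnSeries.C : B →+* LaurentSeries B) h) =
      map (HahnSeries.C : B →+* LaurentSeries B) (cD δ h) := by
  induction h using MvPolynomial.induction_on' with
  | add g1 g2 h1 h2 => rw [map_add, map_add, h1, h2, map_add, map_add]
  | monomial a s =>
    rw [map_monomial, cD_monomial, cD_monomial, map_monomial]
    congr 1
    ext k
    rw [hd, HahnSeries.C_apply, HahnSeries.C_apply, HahnSeries.coeff_single,
      HahnSeries.coeff_single]
    split_ifs
    · rfl
    · rw [map_zero]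

omit [Algebra ℚ B] in
theorem cD_map_zero (dT : DerZ (LaurentSeries B))
    (hT : ∀ f k, (dT f).coeff k = (k : B) * f.coeff k) (h : Poly n B) :
    cD dT (map (HahnSeries.C : B →+* LaurentSeries B) h) = 0 := by
  induction h using MvPolynomial.induction_on' with
  | add g1 g2 h1 h2 => rw [map_add, map_add, h1, h2, add_zero]
  | monomial a s =>
    rw [map_monomial, cD_monomial]
    have : dT (HahnSeries.C s) = 0 := by
      ext k
      rw [hT, HahnSeries.C_apply, HahnSeries.coeff_single, HahnSeries.coeff_zero]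
      split_ifs with h
      · rw [h, Int.cast_zero, zero_mul]
      · rw [mul_zero]
    rw [this, monomial_zero]

omit [Algebra ℚ B] in
theorem Sg_map (D : ℕ) : map (HahnSeries.C : B →+* LaurentSeries B) (Sg n B ^ D) =
    Sg n (LaurentSeries B) ^ D := by
  rw [map_pow, Sg, map_sum, Sg]
  simp only [map_X]

end

end JNh

theorem JN_proof (hIOB : IOBStmt) : JNStmt := by
  intro B _ _ n D hD X1 hX
  refine ⟨fun dT hT g => ?_, fun δ d hd g => ?_⟩
  · refine JNh.reduce dT (PL D X1) (JL D X1) (fun a => ?_) g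
    have e2 : dT (HahnSeries.single (-1) 1) = -HahnSeries.single (-1) 1 := by
      ext k
      rw [hT, HahnSeries.coeff_neg, HahnSeries.coeff_single]
      split_ifs with h
      · rw [h]; push_cast; ring
      · rw [mul_zero, neg_zero]
    have e1 : nab0 dT (PL D X1) (monomial a 1) = C (HahnSeries.single (-1) 1) *
        map (HahnSeries.C : B →+* LaurentSeries B) (Sg n B ^ D * monomial a 1) := by
      refine (JNh.nab_gen dT D _ _ a).trans ?_
      rw [JNh.cD_map_zero dT hT, e2, map_mul, JNh.Sg_map, map_monomial, RingHom.map_one, map_neg]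
      ring
    rw [e1, JRh.JL_monomial, one_mul]
    ext k
    rw [JRh.JL_single_map, hT, JRh.jL_coeff]
    by_cases hk : 0 ≤ k
    · obtain ⟨m, rfl⟩ := Int.eq_ofNat_of_zero_le hk
      rw [if_pos hk, Int.toNat_natCast]
      rcases Nat.eq_zero_or_pos m with h0 | hpos
      · subst h0
        rw [(JNh.aN_T hIOB hD X1 0 a).2, if_neg (by omega), mul_zero]
      · obtain ⟨N, rfl⟩ : ∃ N, m = N + 1 := ⟨m - 1, by omega⟩
        have e3 : (((N + 1 : ℕ) : ℤ) - 1).toNat = N := by omega
        rw [(JNh.aN_T hIOB hD X1 N a).1, if_pos (by omega), e3, Int.cast_natCast]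
    · rw [if_neg hk, if_neg (by omega), mul_zero]
  · refine JNh.reduce d (PL D X1) (JL D X1) (fun a => ?_) g
    have e2 : d (HahnSeries.single (-1) 1) = 0 := by
      ext k
      rw [hd, HahnSeries.coeff_single, HahnSeries.coeff_zero]
      split_ifs
      · exact JNh.d_one δ
      · exact map_zero δ
    have e1 : nab0 d (PL D X1) (monomial a 1) =
        map (HahnSeries.C : B →+* LaurentSeries B) (cD δ X1 * monomial a 1) := by
      refine (JNh.nab_gen d D _ _ a).trans ?_
      rw [JNh.cD_map_C δ d hd, e2, map_mul, map_monomial, RingHom.map_one, map_zero]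
      ring
    rw [e1, JRh.JL_monomial, one_mul]
    ext k
    rw [JRh.JL_map, hd, JRh.jL_coeff]
    split_ifs with hk
    · exact JNh.aN_B hD hX δ _ a
    · exact (map_zero δ).symm

end Pool.CUBE
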